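import Pool.Agent.helper84.LP.SpecP

/-!
# Row lp:SBA (MP_07c750_an): submultiplicativity of the leaf inequality
-/

set_option autoImplicit false

open MeasureTheory Set

namespace Pool.Agent.LP

noncomputable section

theorem SBA_eeadd (x y : ℝ) : ee (x + y) = ee x * ee y := by
  unfold ee
  rw [← Complex.exp_add]
  push_cast
  rw [add_mul]

theorem SBA_eec : Continuous ee := by
  unfold ee
  fun_prop

theorem SBA_eed (c u : ℝ) : HasDerivAt (fun u : ℝ => ee (c * u)) ((c : ℂ) * Complex.I * ee (c * u)) u := by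
  unfold ee
  have h1 : HasDerivAt (fun u : ℝ => c * u) c u := by simpa using (hasDerivAt_id u).const_mul c
  have h5 := ((h1.ofReal_comp).mul_const Complex.I).cexp
  rw [mul_comm ((c : ℂ) * Complex.I)]
  exact h5

theorem SBA_sq2 (x y : ℂ) : ‖x + y‖ ^ 2 ≤ 2 * ‖x‖ ^ 2 + 2 * ‖y‖ ^ 2 := by
  have := norm_add_le x y
  nlinarith [norm_nonneg (x + y), norm_nonneg x, norm_nonneg y, sq_nonneg (‖x‖ - ‖y‖)]

theorem SBA_sq (a δ : ℝ) (hδ : 0 < δ) (g : ℝ → ℝ) (hg : Continuous g) :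
    (∫ u in Ioc a (a + δ), g u) ^ 2 ≤ δ * ∫ u in Ioc a (a + δ), g u ^ 2 := by
  set G : ℝ := ∫ u in Ioc a (a + δ), g u with hG
  have hi : ∀ f : ℝ → ℝ, Continuous f → IntegrableOn f (Ioc a (a + δ)) :=
    fun f hf => hf.integrableOn_Icc.mono_set Ioc_subset_Icc_self
  have h1 : 0 ≤ ∫ u in Ioc a (a + δ), (g u - G / δ) ^ 2 := integral_nonneg fun u => sq_nonneg _
  have h2 : ∫ u in Ioc a (a + δ), (g u - G / δ) ^ 2 =
      (∫ u in Ioc a (a + δ), g u ^ 2) - 2 * (G / δ) * G + δ * (G / δ) ^ 2 := by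
    have h3 : ∀ u : ℝ, (g u - G / δ) ^ 2 = g u ^ 2 - 2 * (G / δ) * g u + (G / δ) ^ 2 := fun u => by ring
    simp only [h3]
    rw [integral_add (hi (fun u => g u ^ 2 - 2 * (G / δ) * g u) (by fun_prop)) (hi (fun _ => (G / δ) ^ 2) (by fun_prop)),
      integral_sub (hi (fun u => g u ^ 2) (by fun_prop)) (hi (fun u => 2 * (G / δ) * g u) (by fun_prop)),
      integral_const_mul, ← hG]
    simp [hδ.le]
  rw [h2] at h1
  have h4 : δ * ((∫ u in Ioc a (a + δ), g u ^ 2) - 2 * (G / δ) * G + δ * (G / δ) ^ 2) =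
      δ * (∫ u in Ioc a (a + δ), g u ^ 2) - G ^ 2 := by
    field_simp
    ring
  have h5 := mul_nonneg hδ.le h1
  rw [h4] at h5
  linarith

theorem SBA_cs (a δ : ℝ) (hδ : 0 < δ) (G : ℝ → ℂ) (hG : Continuous G) (v : ℝ) (h0 : a ≤ v) (h1 : v ≤ a + δ) :
    ‖∫ u in a..v, G u‖ ^ 2 ≤ δ * ∫ u in Ioc a (a + δ), ‖G u‖ ^ 2 := by
  have hn : Continuous fun u => ‖G u‖ := hG.norm
  have h2 : ‖∫ u in a..v, G u‖ ≤ ∫ u in Ioc a (a + δ), ‖G u‖ := by
    refine (intervalIntegral.norm_integral_le_integral_norm h0).trans ?_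
    rw [intervalIntegral.integral_of_le h0]
    exact setIntegral_mono_set (hn.integrableOn_Icc.mono_set Ioc_subset_Icc_self) (Filter.Eventually.of_forall fun u => norm_nonneg _)
      (LE.le.eventuallyLE (Ioc_subset_Ioc_right h1))
  exact (pow_le_pow_left₀ (norm_nonneg _) h2 2).trans (SBA_sq a δ hδ _ hn)

theorem SBA_B (a δ : ℝ) (hδ : 0 < δ) (b b' : ℝ → ℂ) (hb : ∀ u, HasDerivAt b (b' u) u) (hb' : Continuous b') :
    δ * ‖b a‖ ^ 2 ≤ 2 * (∫ u in Ioc a (a + δ), ‖b u‖ ^ 2) + 2 * δ ^ 2 * ∫ u in Ioc a (a + δ), ‖b' u‖ ^ 2 := by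
  have hbc : Continuous b := continuous_iff_continuousAt.2 fun u => (hb u).continuousAt
  set m : ℝ := ∫ u in Ioc a (a + δ), ‖b' u‖ ^ 2 with hm
  have h1 : ∀ u ∈ Ioc a (a + δ), ‖b a‖ ^ 2 ≤ 2 * ‖b u‖ ^ 2 + 2 * (δ * m) := by
    intro u hu
    have h2 : ∫ s in a..u, b' s = b u - b a :=
      intervalIntegral.integral_eq_sub_of_hasDerivAt (fun s _ => hb s) (hb'.intervalIntegrable _ _)
    have h3 : b a = b u + -∫ s in a..u, b' s := by
      rw [h2]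
      ring
    have h4 := SBA_sq2 (b u) (-∫ s in a..u, b' s)
    rw [← h3, norm_neg] at h4
    have h5 := SBA_cs a δ hδ b' hb' u hu.1.le hu.2
    linarith
  have h4 : Continuous fun u => 2 * ‖b u‖ ^ 2 := by fun_prop
  have hI : IntegrableOn (fun u => 2 * ‖b u‖ ^ 2 + 2 * (δ * m)) (Ioc a (a + δ)) := by
    have h2 : Continuous (fun u => 2 * ‖b u‖ ^ 2 + 2 * (δ * m)) := by fun_prop
    exact h2.integrableOn_Icc.mono_set Ioc_subset_Icc_self
  have h3 : ∫ _ in Ioc a (a + δ), ‖b a‖ ^ 2 ≤ ∫ u in Ioc a (a + δ), (2 * ‖b u‖ ^ 2 + 2 * (δ * m)) :=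
    setIntegral_mono_on (integrableOn_const (by simp)) hI measurableSet_Ioc h1
  rw [integral_add (h4.integrableOn_Icc.mono_set Ioc_subset_Icc_self) (integrableOn_const (by simp)), integral_const_mul] at h3
  have h5 : ∫ _ in Ioc a (a + δ), ‖b a‖ ^ 2 = δ * ‖b a‖ ^ 2 := by simp [hδ.le]
  have h6 : ∫ _ in Ioc a (a + δ), (2 * (δ * m)) = δ * (2 * (δ * m)) := by simp [hδ.le]
  rw [h5, h6] at h3
  nlinarith

theorem SBA_A (a δ : ℝ) (hδ : 0 < δ) (E : Set ℝ) (hEm : MeasurableSet E) (hE : E ⊆ Icc a (a + δ)) (D : Finset ℤ) (Q : ℝ)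
    (φ : ℤ → ℝ → ℂ) (hφ : ∀ d, Continuous (φ d))
    (h : ∀ b : ℤ → ℂ, ∫ v in E, ‖∑ d ∈ D, b d * φ d v‖ ^ 2 ≤ Q * ∑ d ∈ D, ‖b d‖ ^ 2)
    (b b' : ℤ → ℝ → ℂ) (hb : ∀ d u, HasDerivAt (b d) (b' d u) u) (hb' : ∀ d, Continuous (b' d)) :
    ∫ v in E, ‖∑ d ∈ D, b d v * φ d v‖ ^ 2 ≤
      2 * (Q * ∑ d ∈ D, ‖b d a‖ ^ 2) + 2 * δ * (Q * ∑ d ∈ D, ∫ u in Ioc a (a + δ), ‖b' d u‖ ^ 2) := by
  have hbc : ∀ d, Continuous (b d) := fun d => continuous_iff_continuousAt.2 fun u => (hb d u).continuousAt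
  -- the double function
  set g : ℝ → ℝ → ℝ := fun v u => ‖∑ d ∈ D, b' d u * φ d v‖ ^ 2 with hg
  have hgc : Continuous (Function.uncurry g) := by
    rw [hg]
    unfold Function.uncurry
    refine (Continuous.norm (continuous_finsetSum _ fun d _ => ?_)).pow 2
    exact ((hb' d).comp continuous_snd).mul ((hφ d).comp continuous_fst)
  have h1 : ∀ v ∈ E, ‖∑ d ∈ D, b d v * φ d v‖ ^ 2 ≤
      2 * ‖∑ d ∈ D, b d a * φ d v‖ ^ 2 + 2 * δ * ∫ u in Ioc a (a + δ), g v u := by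
    intro v hv
    have hv2 := hE hv
    have h2 : ∀ d, b d v = b d a + ∫ s in a..v, b' d s := by
      intro d
      rw [intervalIntegral.integral_eq_sub_of_hasDerivAt (fun s _ => hb d s) ((hb' d).intervalIntegrable _ _)]
      ring
    have h3 : ∑ d ∈ D, b d v * φ d v = ∑ d ∈ D, b d a * φ d v + ∫ s in a..v, ∑ d ∈ D, b' d s * φ d v := by
      rw [intervalIntegral.integral_finsetSum, ← Finset.sum_add_distrib]
      · refine Finset.sum_congr rfl fun d _ => ?_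
        rw [intervalIntegral.integral_mul_const, h2 d]
        ring
      · intro d _
        exact ((hb' d).mul continuous_const).intervalIntegrable _ _
    rw [h3]
    refine (SBA_sq2 _ _).trans ?_
    have h4 : Continuous fun s => ∑ d ∈ D, b' d s * φ d v := continuous_finsetSum _ fun d _ => (hb' d).mul continuous_const
    have h5 := SBA_cs a δ hδ (fun s => ∑ d ∈ D, b' d s * φ d v) h4 v hv2.1 hv2.2
    have h6 : ∫ u in Ioc a (a + δ), g v u = ∫ u in Ioc a (a + δ), ‖∑ d ∈ D, b' d u * φ d v‖ ^ 2 := rfl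
    rw [h6]
    linarith
  have hK : IsCompact (Icc a (a + δ) ×ˢ Icc a (a + δ)) := isCompact_Icc.prod isCompact_Icc
  have hint : Integrable (Function.uncurry g) ((volume.restrict E).prod (volume.restrict (Ioc a (a + δ)))) := by
    rw [Measure.prod_restrict]
    exact (hgc.continuousOn.integrableOn_compact hK).mono_set (prod_mono hE Ioc_subset_Icc_self)
  have hint2 : IntegrableOn (fun v => ∫ u in Ioc a (a + δ), g v u) E := hint.integral_prod_left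
  have hint3 : IntegrableOn (fun u => ∫ v in E, g v u) (Ioc a (a + δ)) := hint.integral_prod_right
  have hf0 : Continuous fun v : ℝ => ‖∑ d ∈ D, b d a * φ d v‖ ^ 2 := by
    refine (Continuous.norm (continuous_finsetSum _ fun d _ => ?_)).pow 2
    exact continuous_const.mul (hφ d)
  have hf1 : Continuous fun v : ℝ => ‖∑ d ∈ D, b d v * φ d v‖ ^ 2 := by
    refine (Continuous.norm (continuous_finsetSum _ fun d _ => ?_)).pow 2
    exact (hbc d).mul (hφ d)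
  have hf0i : IntegrableOn (fun v : ℝ => 2 * ‖∑ d ∈ D, b d a * φ d v‖ ^ 2) E :=
    ((hf0.integrableOn_Icc).mono_set hE).const_mul 2
  have h7 : ∫ v in E, ‖∑ d ∈ D, b d v * φ d v‖ ^ 2 ≤
      ∫ v in E, (2 * ‖∑ d ∈ D, b d a * φ d v‖ ^ 2 + 2 * δ * ∫ u in Ioc a (a + δ), g v u) :=
    setIntegral_mono_on ((hf1.integrableOn_Icc).mono_set hE) (hf0i.add (hint2.const_mul (2 * δ))) hEm h1
  rw [integral_add hf0i (hint2.const_mul (2 * δ)), integral_const_mul, integral_const_mul] at h7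
  have h8 : ∫ v in E, ∫ u in Ioc a (a + δ), g v u = ∫ u in Ioc a (a + δ), ∫ v in E, g v u := integral_integral_swap hint
  have h9 : ∫ u in Ioc a (a + δ), ∫ v in E, g v u ≤ ∫ u in Ioc a (a + δ), Q * ∑ d ∈ D, ‖b' d u‖ ^ 2 := by
    have h10 : Continuous fun u : ℝ => Q * ∑ d ∈ D, ‖b' d u‖ ^ 2 :=
      continuous_const.mul (continuous_finsetSum _ fun d _ => ((hb' d).norm).pow 2)
    exact setIntegral_mono_on hint3 (h10.integrableOn_Icc.mono_set Ioc_subset_Icc_self) measurableSet_Ioc fun u _ => h fun d => b' d u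
  have h11 : ∫ u in Ioc a (a + δ), Q * ∑ d ∈ D, ‖b' d u‖ ^ 2 = Q * ∑ d ∈ D, ∫ u in Ioc a (a + δ), ‖b' d u‖ ^ 2 := by
    rw [integral_const_mul, integral_finsetSum]
    intro d _
    exact (((hb' d).norm).pow 2).integrableOn_Icc.mono_set Ioc_subset_Icc_self
  have h12 := h fun d => b d a
  rw [h8] at h7
  rw [h11] at h9
  have h13 := mul_le_mul_of_nonneg_left h9 (by positivity : 0 ≤ 2 * δ)
  linarith

/-- the trigonometric polynomial -/
def SBA_P (S : Finset ℤ) (a : ℤ → ℂ) (m : ℤ) (v : ℝ) : ℂ := ∑ j ∈ S, a j * ee (Real.pi * ((j : ℝ) - m) / 2 * v)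

theorem SBA_Pc (S : Finset ℤ) (a : ℤ → ℂ) (m : ℤ) : Continuous (SBA_P S a m) := by
  unfold SBA_P ee
  fun_prop

/-- the coefficients of the derivative -/
def SBA_da (a : ℤ → ℂ) (m : ℤ) (j : ℤ) : ℂ := a j * (((Real.pi * ((j : ℝ) - m) / 2 : ℝ) : ℂ) * Complex.I)

theorem SBA_Pd (S : Finset ℤ) (a : ℤ → ℂ) (m : ℤ) (u : ℝ) : HasDerivAt (SBA_P S a m) (SBA_P S (SBA_da a m) m u) u := by
  have h1 : HasDerivAt (fun u : ℝ => ∑ j ∈ S, a j * ee (Real.pi * ((j : ℝ) - m) / 2 * u))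
      (∑ j ∈ S, a j * (((Real.pi * ((j : ℝ) - m) / 2 : ℝ) : ℂ) * Complex.I * ee (Real.pi * ((j : ℝ) - m) / 2 * u))) u :=
    HasDerivAt.fun_sum fun j _ => (SBA_eed _ u).const_mul (a j)
  have h2 : ∑ j ∈ S, a j * (((Real.pi * ((j : ℝ) - m) / 2 : ℝ) : ℂ) * Complex.I * ee (Real.pi * ((j : ℝ) - m) / 2 * u)) =
      SBA_P S (SBA_da a m) m u := by
    unfold SBA_P SBA_da
    refine Finset.sum_congr rfl fun j _ => ?_
    ring
  rw [h2] at h1
  exact h1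

theorem SBA_orth (n : ℤ) : ∫ v in Ioc (0 : ℝ) 4, ee (Real.pi * n / 2 * v) = if n = 0 then 4 else 0 := by
  rw [← intervalIntegral.integral_of_le (by norm_num : (0 : ℝ) ≤ 4)]
  by_cases hn : n = 0
  · rw [if_pos hn, hn]
    simp [ee]
  · rw [if_neg hn]
    have hc : ((Real.pi * n / 2 : ℝ) : ℂ) * Complex.I ≠ 0 := by
      refine mul_ne_zero ?_ Complex.I_ne_zero
      rw [Complex.ofReal_ne_zero]
      have h1 : (n : ℝ) ≠ 0 := by exact_mod_cast hn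
      have h2 := Real.pi_ne_zero
      positivity
    have h3 : ∀ v : ℝ, ee (Real.pi * n / 2 * v) = Complex.exp (((Real.pi * n / 2 : ℝ) : ℂ) * Complex.I * v) := by
      intro v
      unfold ee
      push_cast
      ring_nf
    simp only [h3]
    rw [integral_exp_mul_complex hc]
    have h4 : ((Real.pi * n / 2 : ℝ) : ℂ) * Complex.I * ((4 : ℝ) : ℂ) = n * (2 * Real.pi * Complex.I) := by
      push_cast
      ring
    rw [h4, Complex.exp_int_mul_two_pi_mul_I]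
    simp

theorem SBA_par (S : Finset ℤ) (a : ℤ → ℂ) (m : ℤ) :
    ∫ v in Ioc (0 : ℝ) 4, ‖SBA_P S a m v‖ ^ 2 = 4 * ∑ j ∈ S, ‖a j‖ ^ 2 := by
  have h1 : ∀ v : ℝ, ((‖SBA_P S a m v‖ ^ 2 : ℝ) : ℂ) =
      ∑ j ∈ S, ∑ l ∈ S, a j * (starRingEnd ℂ) (a l) * ee (Real.pi * ((j - l : ℤ) : ℝ) / 2 * v) := by
    intro v
    have h2 : ((‖SBA_P S a m v‖ ^ 2 : ℝ) : ℂ) = SBA_P S a m v * (starRingEnd ℂ) (SBA_P S a m v) := by
      rw [Complex.mul_conj, Complex.normSq_eq_norm_sq]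
    rw [h2]
    unfold SBA_P
    rw [map_sum, Finset.sum_mul_sum]
    refine Finset.sum_congr rfl fun j _ => Finset.sum_congr rfl fun l _ => ?_
    have h3 : (starRingEnd ℂ) (ee (Real.pi * ((l : ℝ) - m) / 2 * v)) = ee (-(Real.pi * ((l : ℝ) - m) / 2 * v)) := by
      unfold ee
      rw [← Complex.exp_conj, map_mul, Complex.conj_ofReal, Complex.conj_I]
      push_cast
      ring_nf
    have h4 : ee (Real.pi * ((j - l : ℤ) : ℝ) / 2 * v) =
        ee (Real.pi * ((j : ℝ) - m) / 2 * v) * ee (-(Real.pi * ((l : ℝ) - m) / 2 * v)) := by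
      rw [← SBA_eeadd]
      congr 1
      push_cast
      ring
    rw [map_mul, h3, h4]
    ring
  have hI : ∀ n : ℤ, IntegrableOn (fun v : ℝ => ee (Real.pi * (n : ℝ) / 2 * v)) (Ioc (0 : ℝ) 4) := fun n =>
    (SBA_eec.comp (by fun_prop : Continuous fun v : ℝ => Real.pi * (n : ℝ) / 2 * v)).integrableOn_Icc.mono_set Ioc_subset_Icc_self
  have h5 : ((∫ v in Ioc (0 : ℝ) 4, ‖SBA_P S a m v‖ ^ 2 : ℝ) : ℂ) = ((4 * ∑ j ∈ S, ‖a j‖ ^ 2 : ℝ) : ℂ) := by
    rw [← integral_complex_ofReal]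
    simp only [h1]
    rw [integral_finsetSum _ (fun j _ => integrable_finsetSum _ fun l _ => (hI (j - l)).const_mul _)]
    rw [Complex.ofReal_mul, Complex.ofReal_sum, Finset.mul_sum]
    refine Finset.sum_congr rfl fun j hj => ?_
    rw [integral_finsetSum _ (fun l _ => (hI (j - l)).const_mul _)]
    rw [Finset.sum_eq_single j]
    · rw [integral_const_mul, SBA_orth, if_pos (sub_self j), Complex.mul_conj, Complex.normSq_eq_norm_sq]
      push_cast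
      ring
    · intro l _ hl
      rw [integral_const_mul, SBA_orth, if_neg (fun h => hl (sub_eq_zero.1 h).symm), mul_zero]
    · intro h
      exact absurd hj h
  exact_mod_cast h5

theorem SBA_cov (N : ℕ) (hN : 1 ≤ N) (Y : Set ℝ) (hYm : MeasurableSet Y) (hY : Y ⊆ Icc (0 : ℝ) 1) (g : ℝ → ℝ) (hg : Continuous g)
    (h0 : ∀ v, 0 ≤ g v) :
    ∫ v in Y, g v ≤ ∑ c ∈ Finset.range N, ∫ v in Y ∩ Icc ((c : ℝ) / N) (((c : ℝ) + 1) / N), g v := by
  have hNR : (0 : ℝ) < N := by exact_mod_cast hN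
  have hm : ∀ c : ℕ, MeasurableSet (Y ∩ Icc ((c : ℝ) / N) (((c : ℝ) + 1) / N)) := fun c => hYm.inter measurableSet_Icc
  have hi : ∀ c : ℕ, IntegrableOn g (Y ∩ Icc ((c : ℝ) / N) (((c : ℝ) + 1) / N)) := fun c =>
    hg.integrableOn_Icc.mono_set inter_subset_right
  have hiY : IntegrableOn g Y := hg.integrableOn_Icc.mono_set hY
  have h1 : ∀ c : ℕ, ∫ v in Y ∩ Icc ((c : ℝ) / N) (((c : ℝ) + 1) / N), g v =
      ∫ v, (Y ∩ Icc ((c : ℝ) / N) (((c : ℝ) + 1) / N)).indicator g v := fun c => (integral_indicator (hm c)).symm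
  simp only [h1]
  rw [← integral_indicator hYm, ← integral_finsetSum _ (fun c _ => (integrable_indicator_iff (hm c)).2 (hi c))]
  refine integral_mono ((integrable_indicator_iff hYm).2 hiY)
    (integrable_finsetSum _ fun c _ => (integrable_indicator_iff (hm c)).2 (hi c)) fun v => ?_
  have hnn : ∀ c : ℕ, 0 ≤ (Y ∩ Icc ((c : ℝ) / N) (((c : ℝ) + 1) / N)).indicator g v := fun c =>
    indicator_nonneg (fun _ _ => h0 _) v
  by_cases hv : v ∈ Y
  · obtain ⟨hv0, hv1⟩ := hY hv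
    obtain ⟨c, hc, hcv⟩ : ∃ c ∈ Finset.range N, v ∈ Icc ((c : ℝ) / N) (((c : ℝ) + 1) / N) := by
      have hvN : 0 ≤ v * N := mul_nonneg hv0 hNR.le
      by_cases hlt : ⌊v * N⌋₊ < N
      · refine ⟨⌊v * N⌋₊, Finset.mem_range.2 hlt, ?_, ?_⟩
        · rw [div_le_iff₀ hNR]
          exact Nat.floor_le hvN
        · rw [le_div_iff₀ hNR]
          exact (Nat.lt_floor_add_one _).le
      · have h2 : (N : ℝ) ≤ v * N := by
          have h3 := Nat.floor_le hvN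
          have h4 : (N : ℝ) ≤ (⌊v * N⌋₊ : ℝ) := by exact_mod_cast not_lt.1 hlt
          linarith
        have h5 : v = 1 := by nlinarith
        refine ⟨N - 1, Finset.mem_range.2 (by omega), ?_, ?_⟩
        · rw [div_le_iff₀ hNR, Nat.cast_sub hN, h5]
          push_cast
          linarith
        · rw [le_div_iff₀ hNR, Nat.cast_sub hN, h5]
          push_cast
          linarith
    have h6 := Finset.single_le_sum (f := fun c : ℕ => (Y ∩ Icc ((c : ℝ) / N) (((c : ℝ) + 1) / N)).indicator g v)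
      (fun c _ => hnn c) hc
    rw [indicator_of_mem hv]
    have h7 : (Y ∩ Icc ((c : ℝ) / N) (((c : ℝ) + 1) / N)).indicator g v = g v :=
      indicator_of_mem (show v ∈ Y ∩ Icc ((c : ℝ) / N) (((c : ℝ) + 1) / N) from ⟨hv, hcv⟩) g
    rw [h7] at h6
    exact h6
  · rw [indicator_of_notMem hv]
    exact Finset.sum_nonneg fun c _ => hnn c

theorem SBA_add (N : ℕ) (hN : 1 ≤ N) (g : ℝ → ℝ) (hg : Continuous g) :
    ∑ c ∈ Finset.range N, ∫ u in Ioc ((c : ℝ) / N) ((c : ℝ) / N + 1 / N), g u = ∫ u in Ioc (0 : ℝ) 1, g u := by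
  have hNR : (0 : ℝ) < N := by exact_mod_cast hN
  have h1 : ∀ c : ℕ, ∫ u in Ioc ((c : ℝ) / N) ((c : ℝ) / N + 1 / N), g u = ∫ u in ((c : ℝ) / N)..(((c + 1 : ℕ) : ℝ) / N), g u := by
    intro c
    have h2 : (((c + 1 : ℕ) : ℝ) / N) = (c : ℝ) / N + 1 / N := by
      push_cast
      ring
    rw [h2, intervalIntegral.integral_of_le (by
      have : 0 ≤ 1 / (N : ℝ) := by positivity
      linarith)]
  simp only [h1]
  rw [intervalIntegral.sum_integral_adjacent_intervals (a := fun c : ℕ => (c : ℝ) / N) (fun k _ => hg.intervalIntegrable _ _)]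
  rw [Nat.cast_zero, zero_div, div_self hNR.ne', intervalIntegral.integral_of_le zero_le_one]

theorem SBA_proof : SBA_stmt := by
  classical
  refine ⟨16 + 6 * Real.pi ^ 2, by nlinarith [sq_nonneg Real.pi], ?_⟩
  intro N1 Y J Q hN1 hYm hY hQ H c
  have hNR : (0 : ℝ) < N1 := by exact_mod_cast hN1
  have hNZ : (0 : ℤ) < N1 := by exact_mod_cast hN1
  set δ : ℝ := 1 / (N1 : ℝ) with hδ
  have hδ0 : 0 < δ := by positivity
  set Jp : Finset ℤ := J.image (fun j : ℤ => j / (N1 : ℤ)) with hJp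
  set Jd : ℤ → Finset ℤ := fun d => J.filter fun j => j / (N1 : ℤ) = d with hJd
  set φ : ℤ → ℝ → ℂ := fun d v => ee (Real.pi * N1 * d * v / 2) with hφ
  have hφc : ∀ d, Continuous (φ d) := fun d => SBA_eec.comp (by fun_prop)
  set B : ℤ → ℝ → ℂ := fun d => SBA_P (Jd d) c (N1 * d) with hB
  set B' : ℤ → ℝ → ℂ := fun d => SBA_P (Jd d) (SBA_da c (N1 * d)) (N1 * d) with hB'
  have hBc : ∀ d, Continuous (B d) := fun d => SBA_Pc _ _ _
  have hBc' : ∀ d, Continuous (B' d) := fun d => SBA_Pc _ _ _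
  have hsplit : ∀ v : ℝ, ∑ j ∈ J, c j * ee (Real.pi * j * v / 2) = ∑ d ∈ Jp, B d v * φ d v := by
    intro v
    rw [← Finset.sum_fiberwise_of_maps_to (g := fun j : ℤ => j / (N1 : ℤ)) (t := Jp) (fun j hj => Finset.mem_image_of_mem _ hj)]
    refine Finset.sum_congr rfl fun d _ => ?_
    show _ = (∑ j ∈ Jd d, c j * ee (Real.pi * ((j : ℝ) - ((N1 * d : ℤ) : ℝ)) / 2 * v)) * ee (Real.pi * N1 * d * v / 2)
    rw [Finset.sum_mul]
    refine Finset.sum_congr rfl fun j _ => ?_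
    rw [mul_assoc (c j), ← SBA_eeadd]
    congr 2
    push_cast
    ring
  simp only [hsplit]
  have hgc : Continuous fun v => ‖∑ d ∈ Jp, B d v * φ d v‖ ^ 2 :=
    (Continuous.norm (continuous_finsetSum _ fun d _ => (hBc d).mul (hφc d))).pow 2
  refine (SBA_cov N1 hN1 Y hYm hY _ hgc fun v => by positivity).trans ?_
  have h1 : ∀ k ∈ Finset.range N1, ∫ v in Y ∩ Icc ((k : ℝ) / N1) (((k : ℝ) + 1) / N1), ‖∑ d ∈ Jp, B d v * φ d v‖ ^ 2 ≤
      ∑ d ∈ Jp, (4 * Q * (∫ u in Ioc ((k : ℝ) / N1) ((k : ℝ) / N1 + 1 / N1), ‖B d u‖ ^ 2) +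
        6 * Q * δ ^ 2 * ∫ u in Ioc ((k : ℝ) / N1) ((k : ℝ) / N1 + 1 / N1), ‖B' d u‖ ^ 2) := by
    intro k hk
    have hE : Y ∩ Icc ((k : ℝ) / N1) (((k : ℝ) + 1) / N1) ⊆ Icc ((k : ℝ) / N1) ((k : ℝ) / N1 + δ) := by
      intro v hv
      obtain ⟨-, h2, h3⟩ := hv
      refine ⟨h2, h3.trans (le_of_eq ?_)⟩
      rw [hδ]
      ring
    have h2 := SBA_A ((k : ℝ) / N1) δ hδ0 _ (hYm.inter measurableSet_Icc) hE Jp (Q / N1) φ hφc
      (fun b => H k b (Finset.mem_range.1 hk)) B B' (fun d u => SBA_Pd _ _ _ _) hBc'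
    refine h2.trans ?_
    have h3 : ∀ d ∈ Jp, ‖B d ((k : ℝ) / N1)‖ ^ 2 * (2 * (Q / N1)) + 2 * δ * (Q / N1) * (∫ u in Ioc ((k : ℝ) / N1) ((k : ℝ) / N1 + δ), ‖B' d u‖ ^ 2) ≤
        4 * Q * (∫ u in Ioc ((k : ℝ) / N1) ((k : ℝ) / N1 + 1 / N1), ‖B d u‖ ^ 2) +
        6 * Q * δ ^ 2 * ∫ u in Ioc ((k : ℝ) / N1) ((k : ℝ) / N1 + 1 / N1), ‖B' d u‖ ^ 2 := by
      intro d _
      have h4 := SBA_B ((k : ℝ) / N1) δ hδ0 (B d) (B' d) (fun u => SBA_Pd _ _ _ _) (hBc' d)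
      have h5 := mul_le_mul_of_nonneg_left h4 (by positivity : 0 ≤ 2 * Q)
      have h6 : Q / N1 = Q * δ := by
        rw [hδ]
        ring
      rw [h6, ← hδ]
      nlinarith
    have h7 := Finset.sum_le_sum h3
    refine le_trans (le_of_eq ?_) h7
    rw [Finset.sum_add_distrib, ← Finset.sum_mul, ← Finset.mul_sum]
    ring
  refine (Finset.sum_le_sum h1).trans ?_
  rw [Finset.sum_comm]
  have h8 : ∀ d ∈ Jp, ∑ k ∈ Finset.range N1, (4 * Q * (∫ u in Ioc ((k : ℝ) / N1) ((k : ℝ) / N1 + 1 / N1), ‖B d u‖ ^ 2) +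
        6 * Q * δ ^ 2 * ∫ u in Ioc ((k : ℝ) / N1) ((k : ℝ) / N1 + 1 / N1), ‖B' d u‖ ^ 2) ≤
      (16 + 6 * Real.pi ^ 2) * Q * ∑ j ∈ Jd d, ‖c j‖ ^ 2 := by
    intro d _
    rw [Finset.sum_add_distrib, ← Finset.mul_sum, ← Finset.mul_sum, SBA_add N1 hN1 (fun u => ‖B d u‖ ^ 2) (((hBc d).norm).pow 2),
      SBA_add N1 hN1 (fun u => ‖B' d u‖ ^ 2) (((hBc' d).norm).pow 2)]
    have hmono : ∀ g : ℝ → ℂ, Continuous g → ∫ u in Ioc (0 : ℝ) 1, ‖g u‖ ^ 2 ≤ ∫ u in Ioc (0 : ℝ) 4, ‖g u‖ ^ 2 := fun g hg =>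
      setIntegral_mono_set (((hg.norm).pow 2).integrableOn_Icc.mono_set Ioc_subset_Icc_self)
        (Filter.Eventually.of_forall fun u => by positivity)
        (LE.le.eventuallyLE (Ioc_subset_Ioc_right (by norm_num)))
    have h9 : ∫ u in Ioc (0 : ℝ) 1, ‖B d u‖ ^ 2 ≤ 4 * ∑ j ∈ Jd d, ‖c j‖ ^ 2 := (hmono _ (hBc d)).trans (le_of_eq (SBA_par _ _ _))
    have h10 : ∫ u in Ioc (0 : ℝ) 1, ‖B' d u‖ ^ 2 ≤ 4 * ∑ j ∈ Jd d, ‖SBA_da c (N1 * d) j‖ ^ 2 :=
      (hmono _ (hBc' d)).trans (le_of_eq (SBA_par _ _ _))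
    have h11 : ∑ j ∈ Jd d, ‖SBA_da c (N1 * d) j‖ ^ 2 ≤ Real.pi ^ 2 * (N1 : ℝ) ^ 2 / 4 * ∑ j ∈ Jd d, ‖c j‖ ^ 2 := by
      rw [Finset.mul_sum]
      refine Finset.sum_le_sum fun j hj => ?_
      have h12 : j / (N1 : ℤ) = d := (Finset.mem_filter.1 hj).2
      have h13 := Int.emod_add_mul_ediv j (N1 : ℤ)
      have h14 := Int.emod_nonneg j hNZ.ne'
      have h15 := Int.emod_lt_of_pos j hNZ
      rw [h12] at h13
      have h16 : 0 ≤ (j : ℝ) - ((N1 * d : ℤ) : ℝ) := by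
        have : (0 : ℤ) ≤ j - N1 * d := by omega
        exact_mod_cast this
      have h17 : (j : ℝ) - ((N1 * d : ℤ) : ℝ) ≤ N1 := by
        have : j - N1 * d ≤ (N1 : ℤ) := by omega
        exact_mod_cast this
      have h18 : ‖SBA_da c (N1 * d) j‖ = ‖c j‖ * (Real.pi * ((j : ℝ) - ((N1 * d : ℤ) : ℝ)) / 2) := by
        unfold SBA_da
        rw [norm_mul, norm_mul, Complex.norm_I, mul_one, Complex.norm_real, Real.norm_of_nonneg]
        have := Real.pi_pos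
        positivity
      rw [h18]
      have h19 : ((j : ℝ) - ((N1 * d : ℤ) : ℝ)) ^ 2 ≤ (N1 : ℝ) ^ 2 := pow_le_pow_left₀ h16 h17 2
      have h20 : 0 ≤ Real.pi ^ 2 / 4 * ‖c j‖ ^ 2 := by positivity
      nlinarith [mul_le_mul_of_nonneg_left h19 h20]
    have h21 := h10.trans (mul_le_mul_of_nonneg_left h11 (by norm_num : (0 : ℝ) ≤ 4))
    have h22 := mul_le_mul_of_nonneg_left h9 (by positivity : 0 ≤ 4 * Q)
    have h23 := mul_le_mul_of_nonneg_left h21 (by positivity : 0 ≤ 6 * Q * δ ^ 2)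
    have h24 : 6 * Q * δ ^ 2 * (4 * (Real.pi ^ 2 * (N1 : ℝ) ^ 2 / 4 * ∑ j ∈ Jd d, ‖c j‖ ^ 2)) =
        6 * Real.pi ^ 2 * Q * ∑ j ∈ Jd d, ‖c j‖ ^ 2 := by
      rw [hδ]
      field_simp
    rw [h24] at h23
    linarith
  refine (Finset.sum_le_sum h8).trans (le_of_eq ?_)
  rw [← Finset.mul_sum]
  congr 1
  exact Finset.sum_fiberwise_of_maps_to (g := fun j : ℤ => j / (N1 : ℤ)) (t := Jp) (fun j hj => Finset.mem_image_of_mem _ hj) _

end

end Pool.Agent.LP
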