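import Pool.Agent.helper84.LP.SpecG

set_option autoImplicit false

/-!
# Row lp:MVU (MP_07c750_an): the local leaf is a Moebius image of a fixed set
-/

open scoped MatrixGroups ContDiff Topology UpperHalfPlane ComplexConjugate
open UpperHalfPlane MeasureTheory Filter Set

namespace Pool.Agent.LP

open Pool.Agent.RS
open Pool.Agent.MS (bq BB BA SF pf)
open Pool.Agent.HV (FW)
open Pool.Agent.EN (XG MG mkX mkM fl pr)
open Pool.Agent.ER (Low LowJ)

noncomputable section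

/-- exponential near `1` -/
theorem MVU_exp {t δ : ℝ} (hδ1 : δ ≤ 1) (h : |t| ≤ δ) : |Real.exp (t / 2) - 1| ≤ δ := by
  have h1 : |t / 2| ≤ 1 := by
    rw [abs_div, abs_of_pos (by norm_num : (0 : ℝ) < 2)]
    have := abs_nonneg t
    linarith
  have h2 := Real.abs_exp_sub_one_le h1
  have h3 : 2 * |t / 2| = |t| := by
    rw [abs_div, abs_of_pos (by norm_num : (0 : ℝ) < 2)]
    ring
  rw [h3] at h2
  exact h2.trans h

/-- the entries of the product -/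
theorem MVU_box (b v ξ t : ℝ) (k1 : SL(2, ℝ)) (hb : 0 < b) (hb1 : b ≤ 1 / 400) (hv0 : 0 ≤ v) (hv1 : v ≤ 1) (hξ : |ξ| ≤ b / 250)
    (ht : |t| ≤ b / 50) (hk : bq b b (b * v) k1) : bq (4 * b) (4 * b) (4 * b * v) (k1 * nM ξ * aM t) := by
  obtain ⟨h00, h11, h01, h10⟩ := hk
  obtain ⟨A, hA⟩ : ∃ A, A = k1.1 0 0 := ⟨_, rfl⟩
  obtain ⟨B, hB⟩ : ∃ B, B = k1.1 0 1 := ⟨_, rfl⟩
  obtain ⟨C, hC⟩ : ∃ C, C = k1.1 1 0 := ⟨_, rfl⟩
  obtain ⟨D, hD⟩ : ∃ D, D = k1.1 1 1 := ⟨_, rfl⟩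
  rw [← hA] at h00
  rw [← hB] at h01
  rw [← hC] at h10
  rw [← hD] at h11
  have e00 : (k1 * nM ξ * aM t).1 0 0 = A * Real.exp (t / 2) := by
    rw [hA]
    simp [nM, aM, Matrix.SpecialLinearGroup.coe_mul, Matrix.mul_apply, Fin.sum_univ_two]
  have e01 : (k1 * nM ξ * aM t).1 0 1 = (A * ξ + B) * Real.exp (-(t / 2)) := by
    rw [hA, hB]
    simp [nM, aM, Matrix.SpecialLinearGroup.coe_mul, Matrix.mul_apply, Fin.sum_univ_two]
  have e10 : (k1 * nM ξ * aM t).1 1 0 = C * Real.exp (t / 2) := by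
    rw [hC]
    simp [nM, aM, Matrix.SpecialLinearGroup.coe_mul, Matrix.mul_apply, Fin.sum_univ_two]
  have e11 : (k1 * nM ξ * aM t).1 1 1 = (C * ξ + D) * Real.exp (-(t / 2)) := by
    rw [hC, hD]
    simp [nM, aM, Matrix.SpecialLinearGroup.coe_mul, Matrix.mul_apply, Fin.sum_univ_two]
  obtain ⟨E, hE⟩ : ∃ E, E = Real.exp (t / 2) := ⟨_, rfl⟩
  obtain ⟨F, hF⟩ : ∃ F, F = Real.exp (-(t / 2)) := ⟨_, rfl⟩
  have hE1 : |E - 1| ≤ b / 50 := by
    rw [hE]
    exact MVU_exp (by linarith) ht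
  have hF1 : |F - 1| ≤ b / 50 := by
    rw [hF, ← neg_div]
    exact MVU_exp (by linarith) (by rwa [abs_neg])
  rw [← hE] at e00 e10
  rw [← hF] at e01 e11
  unfold bq
  rw [e00, e01, e10, e11]
  have a1 := abs_le.1 h00
  have a5 := abs_le.1 hE1
  have a6 := abs_le.1 hF1
  have hE3 : |E| ≤ 101 / 100 := by
    rw [abs_le]
    constructor <;> linarith
  have hF3 : |F| ≤ 101 / 100 := by
    rw [abs_le]
    constructor <;> linarith
  have hbv : b * v ≤ b * 1 := mul_le_mul_of_nonneg_left hv1 hb.le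
  have hbv0 : 0 ≤ b * v := mul_nonneg hb.le hv0
  refine ⟨?_, ?_, ?_, ?_⟩
  · have e1 : A * E - 1 = (A - 1) * E + (E - 1) := by ring
    rw [e1]
    calc |(A - 1) * E + (E - 1)| ≤ |A - 1| * |E| + |E - 1| := by
          rw [← abs_mul]
          exact abs_add_le _ _
      _ ≤ b * (101 / 100) + b / 50 := add_le_add (mul_le_mul h00 hE3 (abs_nonneg _) hb.le) hE1
      _ ≤ 4 * b := by linarith
  · have e1 : (C * ξ + D) * F - 1 = (C * ξ + (D - 1)) * F + (F - 1) := by ring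
    rw [e1]
    have e0 : |C * ξ| ≤ 1 * (b / 250) := by
      rw [abs_mul]
      exact mul_le_mul (by linarith) hξ (abs_nonneg _) (by norm_num)
    have e2 : |C * ξ + (D - 1)| ≤ b * (11 / 10) := by
      refine (abs_add_le _ _).trans ?_
      linarith
    calc |(C * ξ + (D - 1)) * F + (F - 1)| ≤ |C * ξ + (D - 1)| * |F| + |F - 1| := by
          rw [← abs_mul]
          exact abs_add_le _ _
      _ ≤ b * (11 / 10) * (101 / 100) + b / 50 := add_le_add (mul_le_mul e2 hF3 (abs_nonneg _) (by positivity)) hF1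
      _ ≤ 4 * b := by linarith
  · rw [abs_mul]
    have e0 : |A * ξ| ≤ 2 * (b / 250) := by
      rw [abs_mul]
      refine mul_le_mul ?_ hξ (abs_nonneg _) (by norm_num)
      rw [abs_le]
      constructor <;> linarith
    have e2 : |A * ξ + B| ≤ b * (11 / 10) := by
      refine (abs_add_le _ _).trans ?_
      linarith
    calc |A * ξ + B| * |F| ≤ b * (11 / 10) * (101 / 100) := mul_le_mul e2 hF3 (abs_nonneg _) (by positivity)
      _ ≤ 4 * b := by linarith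
  · rw [abs_mul]
    calc |C| * |E| ≤ b * v * (101 / 100) := mul_le_mul h10 hE3 (abs_nonneg _) hbv0
      _ ≤ 4 * b * v := by linarith

/-- the box condition on the leaf of `z` -/
theorem MVU_fw (hGLC : RS.GLC_stmt) (Γ : Subgroup SL(2, ℝ)) (A : Finset SL(2, ℝ)) (b v s τ x V u : ℝ) (h z M : SL(2, ℝ)) (γ : Γ)
    (hb : 0 < b) (hb1 : b ≤ 1 / 400) (hv0 : 0 ≤ v) (hv1 : v ≤ 1) (hs : 0 ≤ s) (hτ : |τ| ≤ b / 50) (hx : |x| ≤ b / 250)
    (hrel : (γ : SL(2, ℝ)) * h = z * M) (hM : M * lM V = lM u * aM τ * nM x) (hfw : h * lM V * aM s ∈ FW Γ A b v) :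
    z * lM u * aM s ∈ FW Γ A (4 * b) v := by
  have haa : ∀ s t : ℝ, aM (s + t) = aM s * aM t := hGLC.2.2.2.2.2.2.2.2.2.2.1
  have hnn : ∀ s t : ℝ, nM (s + t) = nM s * nM t := hGLC.2.2.2.2.2.2.2.2.2.2.2.1
  have hna : ∀ x t : ℝ, nM x * aM t = aM t * nM (Real.exp (-t) * x) := hGLC.2.2.2.2.2.2.2.2.2.2.2.2.2.2.2.2.2.1
  have ha0 : aM 0 = 1 := by
    ext i j
    fin_cases i <;> fin_cases j <;> simp [aM]
  have hn0 : nM 0 = 1 := by
    ext i j
    fin_cases i <;> fin_cases j <;> simp [nM]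
  have h1 : aM τ * aM (-τ) = 1 := by rw [← haa, add_neg_cancel, ha0]
  have h2 : nM x * nM (-x) = 1 := by rw [← hnn, add_neg_cancel, hn0]
  have h3 : z * lM u * aM s = (γ : SL(2, ℝ)) * (h * lM V * aM s) * nM (Real.exp (-s) * -x) * aM (-τ) := by
    have h4 : aM s * nM (Real.exp (-s) * -x) * aM (-τ) = nM (-x) * aM (-τ) * aM s := by
      rw [← hna, mul_assoc, mul_assoc, ← haa, ← haa, add_comm]
    have h5 : (γ : SL(2, ℝ)) * (h * lM V * aM s) * nM (Real.exp (-s) * -x) * aM (-τ) =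
        (γ : SL(2, ℝ)) * h * lM V * (aM s * nM (Real.exp (-s) * -x) * aM (-τ)) := by
      simp only [mul_assoc]
    rw [h5, h4, hrel, mul_assoc z M, hM]
    have h6 : z * (lM u * aM τ * nM x) * (nM (-x) * aM (-τ) * aM s) = z * lM u * (aM τ * ((nM x * nM (-x)) * aM (-τ))) * aM s := by
      simp only [mul_assoc]
    rw [h6, h2, one_mul, h1, mul_one]
  obtain ⟨y, hy, γ1, hq⟩ := hfw
  refine ⟨y, hy, γ1 * γ⁻¹, ?_⟩
  have h7 : y⁻¹ * ((γ1 * γ⁻¹ : Γ) : SL(2, ℝ)) * (z * lM u * aM s) = y⁻¹ * (γ1 : SL(2, ℝ)) * (h * lM V * aM s) * nM (Real.exp (-s) * -x) * aM (-τ) := by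
    rw [h3, Subgroup.coe_mul, Subgroup.coe_inv]
    group
  rw [h7]
  refine MVU_box b v _ _ _ hb hb1 hv0 hv1 ?_ (by rwa [abs_neg]) hq
  rw [abs_mul, abs_neg, abs_of_pos (Real.exp_pos _)]
  have h8 : Real.exp (-s) ≤ 1 := Real.exp_le_one_iff.2 (by linarith)
  calc Real.exp (-s) * |x| ≤ 1 * (b / 250) := mul_le_mul h8 hx (abs_nonneg _) (by norm_num)
    _ = b / 250 := one_mul _

theorem MVU_proof (hMO2 : MO2_stmt) (hGLC : RS.GLC_stmt) : MVU_stmt := by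
  intro Γ b w τ x V G m Au Ad h z γ hb hb1 hG hw hτ hx hV hrel hu hd
  obtain ⟨-, -, -, u, τ', x', hu2, hτ', hx', hM, hVeq⟩ := hMO2 (b / 1000) w τ x V (by positivity) (by linarith) hw hτ hx hV
  have hG1 : (1 : ℝ) ≤ G := by exact_mod_cast hG
  have hm0 : (0 : ℝ) ≤ m := Nat.cast_nonneg m
  have ha0 : aM 0 = 1 := by
    ext i j
    fin_cases i <;> fin_cases j <;> simp [aM]
  have hrel' : (γ : SL(2, ℝ)) * h = z * (lM w * aM τ * nM x) := by
    rw [hrel]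
    simp only [mul_assoc]
  refine ⟨u, ⟨hu2, ?_, ?_⟩, hVeq⟩
  · have h1 := MVU_fw hGLC Γ Au b (Real.exp (-(G * m))) 0 τ' x' V u h z _ γ hb hb1 (Real.exp_pos _).le
      (Real.exp_le_one_iff.2 (by nlinarith)) le_rfl (by linarith) (by linarith) hrel' hM (by rwa [ha0, mul_one])
    rwa [ha0, mul_one] at h1
  · exact MVU_fw hGLC Γ Ad b (Real.exp (-m)) (((G : ℝ) - 1) * m) τ' x' V u h z _ γ hb hb1 (Real.exp_pos _).le
      (Real.exp_le_one_iff.2 (by linarith)) (mul_nonneg (by linarith) hm0) (by linarith) (by linarith) hrel' hM hd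

end

end Pool.Agent.LP
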